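import Pool.Agent.P8H48.LV.Stm

/-!
# Project LV, package PTB (helper80)
-/

set_option autoImplicit false

open CategoryTheory AlgebraicGeometry Pool.Agent.Y116.UV Pool.Agent.Z125.UN Pool.Agent.R904.TR
open Pool.Agent.R904.CU Pool.Agent.P8H48.DC

namespace Pool.Agent.P8H80.LV

open Pool.Agent.P8H48.LV
open MvPolynomial

theorem ptb : S_PTB := by
  intro hPTA R _ _ P hP hPOL n hHyp
  have hpoly : ∀ (k m : ℕ), P k (aff R (MvPolynomial (Fin m) R)) := fun k m =>
    (hPOL R P hP k R (Fin m)).1 (hP.base k)
  have main : ∀ (r m : ℕ) (g : Fin r → MvPolynomial (Fin m) R),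
      P n (aff R (MvPolynomial (Fin m) R ⧸ Ideal.span (Set.range g))) := by
    intro r
    induction r with
    | zero =>
      intro m g
      have h1 : Ideal.span (Set.range g) = Ideal.span {(0 : MvPolynomial (Fin m) R)} := by
        rw [Set.range_eq_empty, Ideal.span_empty, Ideal.span_singleton_eq_bot.2 rfl]
      rw [h1]
      exact hHyp m 0
    | succ r ih =>
      intro m g
      set h : MvPolynomial (Fin m) R := g 0 with hh
      set g' : Fin r → MvPolynomial (Fin m) R := fun i => g i.succ with hg'
      have h1 : Ideal.span (Set.range g) = Ideal.span {h} ⊔ Ideal.span (Set.range g') := by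
        rw [← Ideal.span_union]
        congr 1
        ext y
        constructor
        · rintro ⟨i, rfl⟩
          refine Fin.cases ?_ (fun j => ?_) i
          · exact Or.inl rfl
          · exact Or.inr ⟨j, rfl⟩
        · rintro (rfl | ⟨j, rfl⟩)
          · exact ⟨0, rfl⟩
          · exact ⟨j.succ, rfl⟩
      rw [h1]
      refine hPTA R P hP n (MvPolynomial (Fin m) R) h r g' (hpoly (n + 1) m) (ih m g') ?_
      let e : MvPolynomial (Fin r) (MvPolynomial (Fin m) R) ≃ₐ[R] MvPolynomial (Fin (r + m)) R :=
        (sumAlgEquiv R (Fin r) (Fin m)).symm.trans (renameEquiv R finSumFinEquiv)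
      have e2 : (MvPolynomial (Fin (r + m)) R ⧸ Ideal.span {e (C h + ∑ i, X i * C (g' i))}) ≃ₐ[R] Hh h g' :=
        (Ideal.quotientEquivAlg (Ideal.span {C h + ∑ i, X i * C (g' i)})
          (Ideal.span {e (C h + ∑ i, X i * C (g' i))}) e (by
            rw [Ideal.map_span, Set.image_singleton]; rfl)).symm
      exact hP.iso n (ft_aff False) ⟨affIso e2.symm⟩ (hHyp (r + m) (e (C h + ∑ i, X i * C (g' i))))
  intro m I
  obtain ⟨r, g, hg⟩ := Submodule.fg_iff_exists_fin_generating_family.1 (IsNoetherian.noetherian I)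
  have : I = Ideal.span (Set.range g) := hg.symm
  rw [this]
  exact main r m g

end Pool.Agent.P8H80.LV
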