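import Pool.Agent.P8H48.LV.Stm
import Pool.Agent.R904.CU.Regular

/-!
# Project LV, package RGT (helper80)
-/

set_option autoImplicit false

open CategoryTheory AlgebraicGeometry Pool.Agent.Y116.UV Pool.Agent.Z125.UN Pool.Agent.R904.TR
open Pool.Agent.R904.CU Pool.Agent.P8H48.DC

namespace Pool.Agent.P8H80.LV

open Pool.Agent.P8H48.LV

theorem rgt : S_RGT := by
  intro R C _ _ _ X j1 j2 h1 h2 hc
  constructor
  · intro hC
    refine isRegularScheme_of_cover fun x => ?_
    have hx : x ∈ Set.range j1.left ∪ Set.range j2.left := by rw [hc]; trivial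
    rcases hx with ⟨y, hy⟩ | ⟨y, hy⟩
    · exact ⟨Spec (.of C), j1.left, h1, ⟨y, hy⟩, isRegularScheme_spec _⟩
    · exact ⟨Spec (.of C), j2.left, h2, ⟨y, hy⟩, isRegularScheme_spec _⟩
  · intro hC
    have hs : Smooth (Spec.map (CommRingCat.ofHom (algebraMap R C))) := by
      rw [HasRingHomProperty.Spec_iff (P := @Smooth)]
      exact (RingHom.smooth_algebraMap (R := R) (S := C)).2 hC
    have key : ∀ (j : aff R C ⟶ X) [IsOpenImmersion j.left],
        Smooth ((Scheme.Hom.opensRange j.left).ι ≫ X.hom) := by
      intro j hj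
      have e1 : j.left ≫ X.hom = Spec.map (CommRingCat.ofHom (algebraMap R C)) := Over.w j
      have e2 : (Scheme.Hom.opensRange j.left).ι ≫ X.hom =
          (Scheme.Hom.isoOpensRange j.left).inv ≫ Spec.map (CommRingCat.ofHom (algebraMap R C)) := by
        rw [← e1, ← Category.assoc, Scheme.Hom.isoOpensRange_inv_comp]
      rw [e2, MorphismProperty.cancel_left_of_respectsIso @Smooth]
      exact hs
    refine IsZariskiLocalAtSource.of_iSup_eq_top (P := @Smooth)
      (fun b : Bool => if b then Scheme.Hom.opensRange j1.left else Scheme.Hom.opensRange j2.left) ?_ ?_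
    · rw [eq_top_iff]
      intro x _
      have hx : x ∈ Set.range j1.left ∪ Set.range j2.left := by rw [hc]; trivial
      rw [TopologicalSpace.Opens.mem_iSup]
      rcases hx with hx | hx
      · exact ⟨true, by simpa using hx⟩
      · exact ⟨false, by simpa using hx⟩
    · rintro (_ | _)
      · exact key j2
      · exact key j1

end Pool.Agent.P8H80.LV
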